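import Mathlib

/-!
# Wirsching's covering conjecture: the constant must be large

Let `R j` be the set of the sums `∑_{i<j} 2^(α i) 3^i`, `α` strictly decreasing with values in
`[0, 2 j - 1]`. If `K > 0` has the property of Q1 then `K > 7901`: for `j = 26`, `l = 23` one has
`|R j| = C(52, 26) ≥ 2 · 7901 · 3^22` and the residue class of `15636140248` modulo `3^23` contains
no element of `R j`.
-/

set_option autoImplicit false

namespace Pool.Agent.Results.MP_77f1eb_nt.ConstantAbove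

open Finset

/-- The set `R_{j-1,j}` of the question. -/
def R (j : ℕ) : Set ℕ :=
  {n : ℕ | ∃ α : Fin j → ℕ, StrictAnti α ∧ (∀ i, α i ≤ 2 * j - 1) ∧
    n = ∑ i, 2 ^ (α i) * 3 ^ (i : ℕ)}

/-- The property of Q1 for the constant `K`. -/
def Covering (K : ℝ) : Prop :=
  ∀ j l : ℕ, 1 ≤ j → 1 ≤ l → 2 * K * (3 : ℝ) ^ (l - 1) ≤ ((R j).ncard : ℝ) →
    ∀ r : ℕ, r < 3 ^ l → ¬ (3 ∣ r) → ∃ n ∈ R j, n % 3 ^ l = r

/-! ### the number of elements -/

/-- the lowest term -/
theorem low (m : ℕ) (α : Fin (m + 1) → ℕ) (h : StrictAnti α) :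
    ∃ t : ℕ, ∑ i, 2 ^ (α i) * 3 ^ (i : ℕ) = 2 ^ (α (Fin.last m)) * (2 * t + 3 ^ m) := by
  have h1 : ∀ i : Fin m, ∃ t : ℕ,
      2 ^ (α i.castSucc) * 3 ^ ((i.castSucc : Fin (m + 1)) : ℕ) =
        2 ^ (α (Fin.last m)) * (2 * t) := by
    intro i
    have h2 : α (Fin.last m) < α i.castSucc := h (Fin.castSucc_lt_last i)
    obtain ⟨k, hk⟩ := Nat.exists_eq_add_of_lt h2
    refine ⟨2 ^ k * 3 ^ ((i.castSucc : Fin (m + 1)) : ℕ), ?_⟩
    rw [hk, pow_add, pow_add]
    ring
  choose t ht using h1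
  refine ⟨∑ i, t i, ?_⟩
  rw [Fin.sum_univ_castSucc, sum_congr rfl fun i _ => ht i, ← mul_sum, ← mul_sum]
  simp only [Fin.val_last]
  ring

theorem two_pow_odd {a b s t : ℕ} (hs : s % 2 = 1) (ht : t % 2 = 1) (h : 2 ^ a * s = 2 ^ b * t) :
    a = b := by
  rcases lt_trichotomy a b with hab | hab | hab
  · exfalso
    obtain ⟨k, rfl⟩ := Nat.exists_eq_add_of_lt hab
    have h1 : 2 ^ a * s = 2 ^ a * (2 * (2 ^ k * t)) := by
      rw [h, pow_add, pow_add]
      ring
    have h2 : s = 2 * (2 ^ k * t) := Nat.eq_of_mul_eq_mul_left (by positivity) h1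
    omega
  · exact hab
  · exfalso
    obtain ⟨k, rfl⟩ := Nat.exists_eq_add_of_lt hab
    have h1 : 2 ^ b * t = 2 ^ b * (2 * (2 ^ k * s)) := by
      rw [← h, pow_add, pow_add]
      ring
    have h2 : t = 2 * (2 ^ k * s) := Nat.eq_of_mul_eq_mul_left (by positivity) h1
    omega

theorem odd_aux (m t : ℕ) : (2 * t + 3 ^ m) % 2 = 1 := by
  have h : 3 ^ m % 2 = 1 := by
    rw [Nat.pow_mod]
    norm_num
  omega

/-- the exponents are determined by the sum -/
theorem inj : ∀ (m : ℕ) (α β : Fin m → ℕ), StrictAnti α → StrictAnti β →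
    ∑ i, 2 ^ (α i) * 3 ^ (i : ℕ) = ∑ i, 2 ^ (β i) * 3 ^ (i : ℕ) → α = β := by
  intro m
  induction m with
  | zero =>
    intro α β _ _ _
    exact Subsingleton.elim _ _
  | succ m ih =>
    intro α β hα hβ h
    obtain ⟨s, hs⟩ := low m α hα
    obtain ⟨t, ht⟩ := low m β hβ
    have h1 : α (Fin.last m) = β (Fin.last m) := by
      refine two_pow_odd (odd_aux m s) (odd_aux m t) ?_
      rw [← hs, ← ht, h]
    rw [Fin.sum_univ_castSucc, Fin.sum_univ_castSucc, h1] at h
    have h2 := Nat.add_right_cancel h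
    have h3 := ih (fun i => α i.castSucc) (fun i => β i.castSucc)
      (fun i j hij => hα (Fin.castSucc_lt_castSucc_iff.mpr hij))
      (fun i j hij => hβ (Fin.castSucc_lt_castSucc_iff.mpr hij)) h2
    funext i
    refine Fin.lastCases h1 (fun k => ?_) i
    exact congrFun h3 k

theorem R_finite (j : ℕ) : (R j).Finite := by
  refine (Set.finite_range (fun α : Fin j → Fin (2 * j) =>
    ∑ i, 2 ^ ((α i : Fin (2 * j)) : ℕ) * 3 ^ (i : ℕ))).subset ?_
  rintro n ⟨α, _, h2, rfl⟩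
  refine ⟨fun i => ⟨α i, ?_⟩, rfl⟩
  have := h2 i
  have := i.2
  omega

/-- the exponents of a set, in decreasing order -/
noncomputable def ex (j : ℕ) (s : Finset ℕ) (h : s.card = j) : Fin j → ℕ :=
  fun i => s.orderEmbOfFin h (Fin.rev i)

theorem ex_anti (j : ℕ) (s : Finset ℕ) (h : s.card = j) : StrictAnti (ex j s h) := by
  intro a b hab
  exact (s.orderEmbOfFin h).strictMono (Fin.rev_lt_rev.mpr hab)

theorem choose_le (j : ℕ) : (2 * j).choose j ≤ (R j).ncard := by
  classical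
  let f : Finset ℕ → ℕ := fun s =>
    if h : s.card = j then ∑ i, 2 ^ (ex j s h i) * 3 ^ (i : ℕ) else 0
  have hf : Set.InjOn f (powersetCard j (range (2 * j)) : Finset (Finset ℕ)) := by
    intro s hs t ht hst
    have hs1 := (mem_powersetCard.mp (mem_coe.mp hs)).2
    have ht1 := (mem_powersetCard.mp (mem_coe.mp ht)).2
    have h1 : ex j s hs1 = ex j t ht1 := by
      refine inj j _ _ (ex_anti j s hs1) (ex_anti j t ht1) ?_
      have h2 : f s = ∑ i, 2 ^ (ex j s hs1 i) * 3 ^ (i : ℕ) := dif_pos hs1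
      have h3 : f t = ∑ i, 2 ^ (ex j t ht1 i) * 3 ^ (i : ℕ) := dif_pos ht1
      rw [← h2, ← h3, hst]
    have h4 : ∀ x, x ∈ s ↔ x ∈ t := by
      have h5 : ∀ (u : Finset ℕ) (hu : u.card = j) (x : ℕ), x ∈ u ↔ ∃ i, ex j u hu i = x := by
        intro u hu x
        have h6 : x ∈ u ↔ x ∈ Set.range (u.orderEmbOfFin hu) := by
          rw [range_orderEmbOfFin]
          exact mem_coe.symm
        rw [h6]
        constructor
        · rintro ⟨i, hi⟩
          exact ⟨Fin.rev i, by rw [ex, Fin.rev_rev]; exact hi⟩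
        · rintro ⟨i, hi⟩
          exact ⟨Fin.rev i, hi⟩
      intro x
      rw [h5 s hs1, h5 t ht1, h1]
    exact Finset.ext h4
  have h1 : ((powersetCard j (range (2 * j))).image f).card = (2 * j).choose j := by
    rw [card_image_of_injOn hf, card_powersetCard, card_range]
  rw [← h1, ← Set.ncard_coe_finset]
  refine Set.ncard_le_ncard ?_ (R_finite j)
  intro n hn
  rw [mem_coe, mem_image] at hn
  obtain ⟨s, hs, rfl⟩ := hn
  have hs1 := (mem_powersetCard.mp hs).2
  refine ⟨ex j s hs1, ex_anti j s hs1, fun i => ?_, dif_pos hs1⟩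
  have h2 : ex j s hs1 i ∈ s := orderEmbOfFin_mem s hs1 _
  have h3 := mem_range.mp ((mem_powersetCard.mp hs).1 h2)
  omega

/-! ### the missed class -/

/-- The loop of the search: `chk m r T c` with the first exponent `a = T - 1, T - 2, …`. -/
def loop (f : ℕ → ℕ → Bool) (m r c : ℕ) : ℕ → Bool
  | 0 => true
  | a + 1 =>
    (if a < r + m then true
     else if 2 ^ a % 3 = c % 3 then
       (let y := ((c + 3 ^ (m + 1) - 2 ^ a % 3 ^ (m + 1)) % 3 ^ (m + 1)) / 3;
        if y % 3 = 0 ∧ m ≠ 0 then true else f a y)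
     else true) && (if a < r + m then true else loop f m r c a)

/-- `chk m r T c = true`: no decreasing sequence of `m` exponents below `T`, the last one at least
`r`, has its sum in the class of `c` modulo `3 ^ m`. -/
def chk (r : ℕ) : ℕ → ℕ → ℕ → Bool
  | 0 => fun _ _ => false
  | m + 1 => fun T c => loop (chk r m) m r c T

theorem loop_true {f : ℕ → ℕ → Bool} {m r c : ℕ} : ∀ {T : ℕ}, loop f m r c T = true →
    ∀ a < T, r + m ≤ a → 2 ^ a % 3 = c % 3 →
      (let y := ((c + 3 ^ (m + 1) - 2 ^ a % 3 ^ (m + 1)) % 3 ^ (m + 1)) / 3;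
        (y % 3 = 0 ∧ m ≠ 0) ∨ f a y = true) := by
  intro T
  induction T with
  | zero => intro _ a ha; omega
  | succ T ih =>
    intro h a ha har hac
    rw [loop, Bool.and_eq_true] at h
    obtain ⟨h1, h2⟩ := h
    have hT : ¬ T < r + m := by omega
    rw [if_neg hT] at h1 h2
    rcases Nat.lt_succ_iff_lt_or_eq.mp ha with h3 | h3
    · exact ih h2 a h3 har hac
    · subst h3
      rw [if_pos hac] at h1
      simp only at h1 ⊢
      split_ifs at h1 with h4
      · exact Or.inl h4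
      · exact Or.inr h1

theorem chk_sound (r : ℕ) : ∀ (m T c : ℕ), c < 3 ^ m → chk r m T c = true →
    ∀ α : ℕ → ℕ, (∀ i, i + 1 < m → α (i + 1) < α i) → (0 < m → α 0 < T) →
      (∀ i < m, r + (m - 1 - i) ≤ α i) →
      (∑ i ∈ range m, 2 ^ (α i) * 3 ^ i) % 3 ^ m ≠ c := by
  intro m
  induction m with
  | zero =>
    intro T c _ h
    simp [chk] at h
  | succ m ih =>
    intro T c hc h α h1 h2 h3 hsum
    have hT := h2 (Nat.succ_pos m)
    rw [sum_range_succ'] at hsum
    obtain ⟨Q, hQ⟩ : ∃ Q, Q = ∑ i ∈ range m, 2 ^ (α (i + 1)) * 3 ^ i := ⟨_, rfl⟩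
    have hQ1 : ∑ i ∈ range m, 2 ^ (α (i + 1)) * 3 ^ (i + 1) = 3 * Q := by
      rw [hQ, mul_sum]
      refine sum_congr rfl fun i _ => ?_
      rw [pow_succ]
      ring
    rw [hQ1, pow_zero, mul_one] at hsum
    have hM : 3 ^ (m + 1) = 3 * 3 ^ m := by rw [pow_succ]; ring
    have hpos : 0 < 3 ^ m := by positivity
    have hmod : 2 ^ α 0 % 3 = c % 3 := by
      rw [← hsum, Nat.mod_mod_of_dvd _ (Dvd.intro _ hM.symm)]
      omega
    have h4 := loop_true (f := chk r m) h (α 0) hT (by have := h3 0 (Nat.succ_pos m); omega) hmod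
    simp only at h4
    obtain ⟨y, hy⟩ : ∃ y, y = ((c + 3 ^ (m + 1) - 2 ^ α 0 % 3 ^ (m + 1)) % 3 ^ (m + 1)) / 3 :=
      ⟨_, rfl⟩
    rw [← hy] at h4
    -- the rest of the sum is in the class of `y`
    have hyQ : Q % 3 ^ m = y := by
      have hp : 2 ^ α 0 % 3 ^ (m + 1) < 3 ^ (m + 1) := Nat.mod_lt _ (by positivity)
      have e1 : (c + 3 ^ (m + 1) - 2 ^ α 0 % 3 ^ (m + 1)) % 3 ^ (m + 1) = (3 * Q) % 3 ^ (m + 1) := by
        have e2 : (c + 3 ^ (m + 1) - 2 ^ α 0 % 3 ^ (m + 1)) + 2 ^ α 0 % 3 ^ (m + 1) =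
            c + 3 ^ (m + 1) := by omega
        have e3 : (c + 3 ^ (m + 1) - 2 ^ α 0 % 3 ^ (m + 1)) + 2 ^ α 0 % 3 ^ (m + 1) ≡
            3 * Q + 2 ^ α 0 % 3 ^ (m + 1) [MOD 3 ^ (m + 1)] := by
          rw [e2]
          have e4 : c + 3 ^ (m + 1) ≡ c [MOD 3 ^ (m + 1)] := by
            simp [Nat.ModEq]
          have e5 : c ≡ 3 * Q + 2 ^ α 0 [MOD 3 ^ (m + 1)] := by
            unfold Nat.ModEq
            rw [hsum, Nat.mod_eq_of_lt hc]
          have e6 : 3 * Q + 2 ^ α 0 ≡ 3 * Q + 2 ^ α 0 % 3 ^ (m + 1) [MOD 3 ^ (m + 1)] :=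
            Nat.ModEq.add_left _ (Nat.mod_modEq _ _).symm
          exact e4.trans (e5.trans e6)
        exact Nat.ModEq.add_right_cancel' _ e3
      rw [hy, e1, hM, Nat.mul_mod_mul_left, Nat.mul_div_cancel_left _ (by norm_num)]
    rcases h4 with ⟨h5, h6⟩ | h5
    · -- `y` divisible by three
      obtain ⟨k, rfl⟩ : ∃ k, m = k + 1 := ⟨m - 1, by omega⟩
      rw [sum_range_succ'] at hQ
      have hQ3 : ∑ i ∈ range k, 2 ^ (α (i + 1 + 1)) * 3 ^ (i + 1) =
          3 * ∑ i ∈ range k, 2 ^ (α (i + 1 + 1)) * 3 ^ i := by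
        rw [mul_sum]
        refine sum_congr rfl fun i _ => ?_
        rw [pow_succ]
        ring
      rw [hQ3, pow_zero, mul_one] at hQ
      have h7 : Q % 3 = 0 := by
        rw [← hyQ, Nat.mod_mod_of_dvd _ (dvd_pow_self 3 (Nat.succ_ne_zero k))] at h5
        exact h5
      have h8 : 2 ^ α (0 + 1) % 3 = 0 := by omega
      have h9 : 3 ∣ 2 ^ α (0 + 1) := Nat.dvd_of_mod_eq_zero h8
      have h10 := Nat.Prime.dvd_of_dvd_pow Nat.prime_three h9
      omega
    · have hylt : y < 3 ^ m := by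
        rw [← hyQ]
        exact Nat.mod_lt _ hpos
      refine ih (α 0) y hylt h5 (fun i => α (i + 1)) ?_ ?_ ?_ ?_
      · intro i hi
        exact h1 (i + 1) (by omega)
      · intro hm
        exact h1 0 (by omega)
      · intro i hi
        have := h3 (i + 1) (by omega)
        omega
      · rw [← hQ]
        exact hyQ

theorem missed (j l c : ℕ) (hl : l ≤ j) (hc : c < 3 ^ l) (h : chk (j - l) l (2 * j) c = true) :
    ∀ n ∈ R j, n % 3 ^ l ≠ c := by
  rintro n ⟨α, h1, h2, rfl⟩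
  let β : ℕ → ℕ := fun i => if hi : i < j then α ⟨i, hi⟩ else 0
  have hβ : ∀ (i : ℕ) (hi : i < j), β i = α ⟨i, hi⟩ := fun i hi => dif_pos hi
  have hs : ∑ i : Fin j, 2 ^ (α i) * 3 ^ (i : ℕ) = ∑ i ∈ range j, 2 ^ (β i) * 3 ^ i := by
    rw [← Fin.sum_univ_eq_sum_range (fun i => 2 ^ (β i) * 3 ^ i) j]
    refine sum_congr rfl fun i _ => ?_
    rw [hβ i i.2]
  have hlow : ∀ k i : ℕ, i + k < j → k ≤ β i := by
    intro k
    induction k with
    | zero => intro i _; exact Nat.zero_le _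
    | succ k ih =>
      intro i hi
      have h3 := ih (i + 1) (by omega)
      have h4 : β (i + 1) < β i := by
        rw [hβ i (by omega), hβ (i + 1) (by omega)]
        exact h1 (Fin.mk_lt_mk.mpr (Nat.lt_succ_self i))
      omega
  have hd : 3 ^ l ∣ ∑ i ∈ Ico l j, 2 ^ (β i) * 3 ^ i := by
    refine dvd_sum fun i hi => ?_
    exact (pow_dvd_pow 3 (mem_Ico.mp hi).1).mul_left _
  rw [hs, ← sum_range_add_sum_Ico _ hl]
  obtain ⟨q, hq⟩ := hd
  rw [hq, Nat.add_mul_mod_self_left]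
  refine chk_sound (j - l) l (2 * j) c hc h β ?_ ?_ ?_
  · intro i hi
    rw [hβ i (by omega), hβ (i + 1) (by omega)]
    exact h1 (Fin.mk_lt_mk.mpr (Nat.lt_succ_self i))
  · intro h0
    rw [hβ 0 (by omega)]
    have := h2 ⟨0, by omega⟩
    omega
  · intro i hi
    have := hlow (j - 1 - i) i (by omega)
    omega

set_option maxRecDepth 100000 in
theorem certificate : chk 3 23 52 15636140248 = true := by decide +kernel

/-- A constant with the property of Q1 exceeds `7901`. -/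
theorem result : ∀ K : ℝ, 0 < K → Covering K → 7901 < K := by
  intro K hK h
  by_contra hle
  rw [not_lt] at hle
  have hcard : 2 * K * (3 : ℝ) ^ (23 - 1) ≤ ((R 26).ncard : ℝ) := by
    have h1 : (((2 * 26).choose 26 : ℕ) : ℝ) ≤ ((R 26).ncard : ℝ) := by
      exact_mod_cast choose_le 26
    refine le_trans ?_ h1
    have h2 : (2 * 26).choose 26 = 495918532948104 := by decide +kernel
    rw [h2]
    have h3 : 2 * K * (3 : ℝ) ^ (23 - 1) ≤ 2 * 7901 * (3 : ℝ) ^ (23 - 1) := by gcongr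
    refine h3.trans ?_
    norm_num
  obtain ⟨n, hn, hr⟩ := h 26 23 (by norm_num) (by norm_num) hcard 15636140248 (by norm_num) (by norm_num)
  exact missed 26 23 15636140248 (by norm_num) (by norm_num) certificate n hn hr

end Pool.Agent.Results.MP_77f1eb_nt.ConstantAbove
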