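import Pool.Agent.Run7.h865.WC.Path
import Pool.Agent.Run7.h865.WC.Tab

/-!
# Wirsching's covering conjecture with the exponent 8/5

Q1 asks for a constant `K` such that `|R_{j-1,j}| ≥ 2 K 3^(l-1)` implies that each unit class modulo
`3^l` meets `R_{j-1,j}`. We prove this with `(3^(l-1))^(8/5)` in place of `3^(l-1)`; and every unit
class modulo `3^l` meets `R_{j-1,j}` for all `l ≤ (4 j - 35) / 5`.
-/

set_option autoImplicit false

namespace Pool.Agent.Results.MP_77f1eb_nt.PowerCovering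

open Pool.Agent.Run7.h865.WC (R)

/-- Every unit class modulo `3 ^ l` contains an element of `R_{j-1,j}`. -/
def AllUnitClasses (j l : ℕ) : Prop :=
  ∀ r : ℕ, r < 3 ^ l → ¬ 3 ∣ r → ∃ n ∈ R j, n % 3 ^ l = r

/-- The property of Q1 for the constant `K`, with the exponent `θ`; Q1 is the case `θ = 1`. -/
def CoveringPow (θ K : ℝ) : Prop :=
  ∀ j l : ℕ, 1 ≤ j → 1 ≤ l → 2 * K * ((3 : ℝ) ^ (l - 1)) ^ θ ≤ ((R j).ncard : ℝ) →
    AllUnitClasses j l

theorem linear (j l : ℕ) (h : 5 * l + 35 ≤ 4 * j) : AllUnitClasses j l := by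
  intro r hr h3
  refine Pool.Agent.Run7.h865.WC.cover (fun c => Pool.Agent.Run7.h865.WC.phi (c % 6561)) 4 9 35
    (by norm_num) Pool.Agent.Run7.h865.WC.step Pool.Agent.Run7.h865.WC.phi_le j l (by omega)
    (by omega) r hr h3

theorem result :
    (∀ j l : ℕ, 5 * l + 35 ≤ 4 * j → AllUnitClasses j l) ∧ CoveringPow (8 / 5) (2 ^ 19) := by
  refine ⟨linear, ?_⟩
  intro j l _ hl h
  refine linear j l ?_
  have h1 : ((R j).ncard : ℝ) ≤ (4 : ℝ) ^ j := by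
    exact_mod_cast Pool.Agent.Run7.h865.WC.ncard_R_le j
  obtain ⟨m, rfl⟩ : ∃ m, l = m + 1 := ⟨l - 1, by omega⟩
  rw [Nat.add_sub_cancel] at h
  have hX : (0 : ℝ) ≤ (3 : ℝ) ^ m := by positivity
  obtain ⟨Y, hY⟩ : ∃ Y, Y = ((3 : ℝ) ^ m) ^ ((8 : ℝ) / 5) := ⟨_, rfl⟩
  have hY0 : 0 ≤ Y := by rw [hY]; positivity
  have hY10 : Y ^ 10 = (3 : ℝ) ^ (16 * m) := by
    rw [hY, ← Real.rpow_natCast, ← Real.rpow_mul hX]
    have e : (8 : ℝ) / 5 * ((10 : ℕ) : ℝ) = ((16 : ℕ) : ℝ) := by norm_num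
    rw [e, Real.rpow_natCast, ← pow_mul, mul_comm m 16]
  rw [← hY] at h
  have h2 : 2 ^ 20 * Y ≤ (4 : ℝ) ^ j := by
    refine le_trans (le_of_eq ?_) (h.trans h1)
    norm_num
  have h3 : (2 ^ 20 * Y) ^ 10 ≤ ((4 : ℝ) ^ j) ^ 10 := pow_le_pow_left₀ (by positivity) h2 10
  have h4 : ((4 : ℝ) ^ j) ^ 10 = 2 ^ (20 * j) := by
    rw [← pow_mul, show (4 : ℝ) = 2 ^ 2 by norm_num, ← pow_mul]
    congr 1
    ring
  rw [mul_pow, hY10, h4] at h3
  have h5 : (2 : ℝ) ^ (200 + 25 * m) ≤ 2 ^ (20 * j) := by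
    refine le_trans ?_ h3
    rw [pow_add, ← pow_mul]
    norm_num only [Nat.reduceMul]
    refine mul_le_mul_of_nonneg_left ?_ (by positivity)
    rw [pow_mul, pow_mul]
    exact pow_le_pow_left₀ (by positivity) (by norm_num) m
  have h6 : 200 + 25 * m ≤ 20 * j := (pow_le_pow_iff_right₀ (by norm_num : (1 : ℝ) < 2)).mp h5
  omega

end Pool.Agent.Results.MP_77f1eb_nt.PowerCovering
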